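import Pool.Agent.H3.Bricks.Lemmas

/-!
# Brick sequences of `F(w)`: the short exact sequence `0 → B_i → B_m → B_j → 0` may fail

Let `Q` be a quiver whose underlying graph is a tree with at least three vertices, for instance a
Dynkin quiver of type `A_n` (`n ≥ 3`), `D_n`, `E_6`, `E_7` or `E_8`, and let `Π` be its
preprojective algebra over a field `k`. Let `a - b - c` be a path in the tree. Then
`s_b s_a s_b s_c s_b s_a` is a reduced expression, the dimension vectors of its bricks satisfy
`dim B_4 = dim B_2 + dim B_6`, and there is no short exact sequence `0 → B_2 → B_4 → B_6 → 0`.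
-/

open MulOpposite Pool.Agent.H3.Bricks

universe u v

namespace Pool.Agent.Results.MP_11aba7_al.NoShortExact

/-- **The short exact sequence between bricks may fail.** Let `Q` be a finite quiver whose
underlying graph is a tree with at least three vertices (for example any Dynkin quiver of type
`A_n` with `n ≥ 3`, `D_n`, `E_6`, `E_7` or `E_8`) and let `k` be a field. Then there are a reduced
expression of an element of the Weyl group, with associated bricks `B_1, B_2, …`, and indices
`i < m < j` with `dim B_m = dim B_i + dim B_j` such that there is no short exact sequence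
`0 → B_i → B_m → B_j → 0` of modules over the preprojective algebra. -/
theorem result {V : Type v} [Fintype V] (Q : OrientedGraph V) (hQ : Q.graph.IsTree)
    (hV : 3 ≤ Fintype.card V) (k : Type u) [Field k] :
    ∃ (ω : List V) (i m j : ℕ),
      (coxeterMatrix Q.graph).toCoxeterSystem.IsReduced ω ∧ i < m ∧ m < j ∧ j < ω.length ∧
      (∀ v, brickDim Q k ω m v = brickDim Q k ω i v + brickDim Q k ω j v) ∧
      ¬ HasShortExact Q k ω i m j := by
  classical
  obtain ⟨a, b, c, hab, hbc, hac, hnac⟩ := exists_path hQ hV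
  have hab' : a ≠ b := hab.ne
  have hbc' : b ≠ c := hbc.ne
  refine ⟨[b, a, b, c, b, a], 1, 3, 5, word_reduced Q.graph hab hbc hac hnac, by norm_num,
    by norm_num, by norm_num, ?_, ?_⟩
  · intro v
    obtain ⟨g2, -, h2a, h2b, h2c, h2d⟩ := spec_two (Q := Q) (k := k) hab hbc hac hnac
    obtain ⟨g4, -, h4a, h4b, h4c, h4d, -⟩ := spec_four (Q := Q) (k := k) hab hbc hac hnac rfl
    obtain ⟨g6, h6a, h6b, h6c, h6d⟩ := spec_six (Q := Q) (k := k) hab hbc hac hnac rfl
    have t2 : Function.Injective ![a, b] := by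
      intro x y hxy
      fin_cases x <;> fin_cases y <;> simp_all
    have t4 : Function.Injective ![c, b, a] := by
      intro x y hxy
      fin_cases x <;> fin_cases y <;> simp_all
    have t6 : Function.Injective ![c] := by
      intro x y hxy
      fin_cases x; fin_cases y; rfl
    have d2 := dimVec_quot g2 _ t2 h2a h2b h2c h2d v
    have d4 := dimVec_quot g4 _ t4 h4a h4b h4c h4d v
    have d6 := dimVec_quot g6 _ t6 h6a h6b h6c h6d v
    have E2 : (∃ i, ![a, b] i = v) ↔ (v = a ∨ v = b) := by
      constructor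
      · rintro ⟨i, rfl⟩; fin_cases i <;> simp
      · rintro (rfl | rfl)
        · exact ⟨0, rfl⟩
        · exact ⟨1, rfl⟩
    have E4 : (∃ i, ![c, b, a] i = v) ↔ (v = a ∨ v = b ∨ v = c) := by
      constructor
      · rintro ⟨i, rfl⟩; fin_cases i <;> simp
      · rintro (rfl | rfl | rfl)
        · exact ⟨2, rfl⟩
        · exact ⟨1, rfl⟩
        · exact ⟨0, rfl⟩
    have E6 : (∃ i, ![c] i = v) ↔ v = c := by
      constructor
      · rintro ⟨i, rfl⟩; fin_cases i; rfl
      · rintro rfl; exact ⟨0, rfl⟩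
    rw [E2] at d2
    rw [E4] at d4
    rw [E6] at d6
    have D2 : brickDim Q k [b, a, b, c, b, a] 1 v =
        if v = a ∨ v = b then 1 else 0 := by
      split_ifs with h
      · exact d2.1 h
      · exact d2.2 h
    have D4 : brickDim Q k [b, a, b, c, b, a] 3 v =
        if v = a ∨ v = b ∨ v = c then 1 else 0 := by
      split_ifs with h
      · exact d4.1 h
      · exact d4.2 h
    have D6 : brickDim Q k [b, a, b, c, b, a] 5 v =
        if v = c then 1 else 0 := by
      split_ifs with h
      · exact d6.1 h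
      · exact d6.2 h
    rw [D2, D4, D6]
    by_cases h1 : v = a
    · subst h1; simp [hac]
    · by_cases h2 : v = b
      · subst h2; simp [hbc']
      · simp [h1, h2]
  · rintro ⟨f, g, hf, -, -⟩
    obtain ⟨g2, ⟨hg20, hg21⟩, h2a, h2b, h2c, h2d⟩ :=
      spec_two (Q := Q) (k := k) hab hbc hac hnac
    obtain ⟨g4, -, h4a, h4b, h4c, h4d, h4e⟩ :=
      spec_four (Q := Q) (k := k) hab hbc hac hnac rfl
    -- the generator of `B_2` and its image
    let u : layer Q k [b, a, b, c, b, a] 1 := Submodule.Quotient.mk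
      (p := (P a (P b (⊤ : Submodule (Prep Q k)ᵐᵒᵖ (Prep Q k)))).submoduleOf (P b ⊤))
      ⟨g2 0, h2a 0⟩
    let u' : layer Q k [b, a, b, c, b, a] 1 := Submodule.Quotient.mk
      (p := (P a (P b (⊤ : Submodule (Prep Q k)ᵐᵒᵖ (Prep Q k)))).submoduleOf (P b ⊤))
      ⟨g2 1, h2a 1⟩
    have hu1 : op (e Q k a) • u = u := by
      change Submodule.Quotient.mk (p := (P a (P b (⊤ : Submodule (Prep Q k)ᵐᵒᵖ
        (Prep Q k)))).submoduleOf _) ⟨g2 0 * e Q k a, _⟩ = Submodule.Quotient.mk ⟨g2 0, h2a 0⟩
      congr 2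
      exact h2b 0
    have hu2 : op (xx Q k ⟨(a, b), hab⟩) • u = u' := by
      change Submodule.Quotient.mk (p := (P a (P b (⊤ : Submodule (Prep Q k)ᵐᵒᵖ
        (Prep Q k)))).submoduleOf _) ⟨g2 0 * xx Q k ⟨(a, b), hab⟩, _⟩ =
        Submodule.Quotient.mk ⟨g2 1, h2a 1⟩
      congr 2
      rw [hg20, hg21]
      exact e_mul_x Q k ⟨(a, b), hab⟩
    have hu' : u' ≠ 0 := by
      intro h
      exact h2c 1 ((quot_mk_eq_zero (h2a 1)).mp h)
    apply hu'
    apply hf
    rw [map_zero, ← hu2, map_smul, ← hu1, map_smul]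
    obtain ⟨⟨y, hy⟩, hyf⟩ := Submodule.Quotient.mk_surjective _ (f u)
    rw [← hyf]
    obtain ⟨c', hc'⟩ := h4d y hy
    change Submodule.Quotient.mk (p := (P c (P b (P a (P b (⊤ : Submodule (Prep Q k)ᵐᵒᵖ
        (Prep Q k)))))).submoduleOf _) ⟨y * e Q k a * xx Q k ⟨(a, b), hab⟩, _⟩ = 0
    rw [quot_mk_eq_zero]
    rw [Fin.sum_univ_three] at hc'
    have hz := mul_right_mem (mul_right_mem hc' (e Q k a)) (xx Q k ⟨(a, b), hab⟩)
    have k0 : g4 0 * e Q k a = 0 := by
      rw [← h4b 0, mul_assoc]
      change g4 0 * (e Q k c * e Q k a) = 0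
      rw [e_mul_ne Q k hac.symm, mul_zero]
    have k1 : g4 1 * e Q k a = 0 := by
      rw [← h4b 1, mul_assoc]
      change g4 1 * (e Q k b * e Q k a) = 0
      rw [e_mul_ne Q k hab'.symm, mul_zero]
    have k2 : g4 2 * e Q k a = g4 2 := h4b 2
    rw [sub_mul, add_mul, add_mul, smul_mul_assoc, smul_mul_assoc, smul_mul_assoc, k0, k1, k2,
      smul_zero, smul_zero, zero_add, zero_add, sub_mul, smul_mul_assoc] at hz
    have h5 := Submodule.add_mem _ hz (Submodule.smul_of_tower_mem _ (c' 2) h4e)
    rwa [sub_add_cancel] at h5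

end Pool.Agent.Results.MP_11aba7_al.NoShortExact
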